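import Pool.Agent.Helper60.FourAPFinal

/-!
The proof is in `Pool.Agent.Helper60.FourAPFinal` and the files it imports.
-/

namespace Pool.Agent.Results.MP_522be6_co.ExponentBelowSix

/-- The statement of the problem fails when the exponent `100` is replaced by any real number
`C < 6`: there is no absolute `c > 0` such that for each density `α` in `(0, 1]` there are `ε > 0`
and `N₀` for which every `A` in `ZMod (N + 1)`, `N ≥ N₀`, of density at least `α` and with all
Fourier coefficients of its balanced function at most `ε (N + 1)`, contains at least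
`c α ^ C (N + 1) ^ 2` four-term progressions `(x, d)`. -/
theorem result (C : ℝ) (hC : C < 6) :
    ¬ ∃ c : ℝ, 0 < c ∧ ∀ α : ℝ, 0 < α → α ≤ 1 →
      ∃ ε : ℝ, 0 < ε ∧ ∃ N₀ : ℕ, ∀ N : ℕ, N₀ ≤ N →
        ∀ A : Finset (ZMod (N + 1)),
          α * ((N : ℝ) + 1) ≤ (A.card : ℝ) →
          (∀ r : ZMod (N + 1),
            ‖∑ x : ZMod (N + 1),
                ((if x ∈ A then (1 : ℂ) else 0) - (A.card : ℂ) / ((N : ℂ) + 1)) *
                  Complex.exp (-(2 * (Real.pi : ℂ) * Complex.I * ((x.val * r.val : ℕ) : ℂ))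
                    / ((N : ℂ) + 1))‖
              ≤ ε * ((N : ℝ) + 1)) →
          c * α ^ C * ((N : ℝ) + 1) ^ 2 ≤
            (((Finset.univ : Finset (ZMod (N + 1) × ZMod (N + 1))).filter
              (fun p => p.1 ∈ A ∧ p.1 + p.2 ∈ A ∧ p.1 + 2 * p.2 ∈ A ∧
                p.1 + 3 * p.2 ∈ A)).card : ℝ) :=
  Pool.Agent.Helper60.FourAP.exponent_below_six C hC

end Pool.Agent.Results.MP_522be6_co.ExponentBelowSix
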