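import Pool.Agent.Helper7.Z4.F

/-!
# MP_522be6_co: four-term progressions in groups of exponent 4

In a finite abelian group `G` in which `4 g = 0` for all `g`, every set `A` of density `α` contains
at least `(α / 7) ^ 243 * |G| ^ 2` four-term progressions `(x, d)`.
-/

set_option autoImplicit false

namespace Pool.Agent.Results.MP_522be6_co.ExponentFourGroups

/-- Let `G` be a finite abelian group with `4 g = 0` for all `g` and let `A` be a subset of `G` of
density `α`.  The number of the pairs `(x, d)` in `G × G` such that `x`, `x + d`, `x + 2 d` and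
`x + 3 d` are in `A` is at least `(α / 7) ^ 243 * |G| ^ 2`. -/
theorem result (G : Type*) [AddCommGroup G] [Fintype G] [DecidableEq G]
    (h4 : ∀ g : G, 4 • g = 0) (A : Finset G) :
    ((A.card : ℝ) / (7 * Fintype.card G)) ^ 243 * (Fintype.card G : ℝ) ^ 2 ≤
      ((Finset.univ.filter fun p : G × G => p.1 ∈ A ∧ p.1 + p.2 ∈ A ∧ p.1 + 2 • p.2 ∈ A ∧
        p.1 + 3 • p.2 ∈ A).card : ℝ) :=
  Helper7.Z4.four G h4 A

end Pool.Agent.Results.MP_522be6_co.ExponentFourGroups
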